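import Pool.Agent.T2h05.LO.All

set_option autoImplicit false

/-!
# Burger–Mozes simple groups are not left-orderable

Let `T₁`, `T₂` be regular trees of finite degrees `d₁, d₂ ≥ 3` and let `Γ` act by automorphisms on both
trees, freely and with finitely many orbits on the set of vertices `V₁ × V₂` of the square complex
`T₁ × T₂` (this holds for every group acting freely and cocompactly on the complex and preserving the two
factors). If every nontrivial normal subgroup of `Γ` has finite index, for instance if `Γ` is simple,
then `Γ` has no left-invariant total order. In particular no simple lattice obtained by the construction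
of Burger and Mozes is left-orderable.

Proof. (1) Existence. Let `P₁`, `P₂` be the averages over the neighbours in `T₁` and in `T₂`,
`P = (P₁ + P₂)/2`, and let `C` be the positive cone of a left order. The sums of the functions `P^n 1_C`
on `V₁ × V₂`, normalised by their Lipschitz constants, which are unbounded (mass transport), converge to a
nonconstant Lipschitz function `f` with `P f = f` all of whose translates are comparable pointwise. By
positivity of the differences of its translates and by the symmetry of the walk, `P₁ f = P₂ f = f`, and no
constant function is in the closure `H` of the set of the translates of `f`. So `H` is a closed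
`Γ`-invariant chain of Lipschitz functions which are harmonic in both variables.
(2) The stabilizers of vertices are commensurated and not virtually abelian. `H` contains a closed
`Γ`-invariant chain `M` which is minimal for all subgroups commensurable with the stabilizers of the
vertices of `T₂`. Along the simple random walk in `T₁` the difference `D` of two elements of `M`
converges; the walk is recurrent on `M` in the sense of martingales with bounded differences, so there
are limits of the pairs whose difference does not depend on the first variable. Such differences are
constant, by an analysis of the centralizers of the stabilizers in the group of automorphisms of the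
chain `M`. As `D` is Lipschitz, dominated convergence shows that `D` does not depend on the second
variable. Hence the stabilizers of the vertices of `T₁` act on `M` by translations, their commutators
act trivially, and so a subgroup of finite index, hence all of `Γ`, acts trivially: contradiction.

Lean by helper2, helper5, helper11, helper18, helper20, helper25, helper62, helper69, helper85, helper99.
-/

namespace Pool.Agent.Results.MP_357edd_al.NotLeftOrderable

open Pool.Agent.T2h05.LO

/-- Let `Γ` act by automorphisms on two regular trees of degrees `d₁, d₂ ≥ 3` so that the action on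
`V₁ × V₂` is free and has finitely many orbits, and suppose that all nontrivial normal subgroups of `Γ`
have finite index (for example that `Γ` is simple). Then `Γ` is not left-orderable. -/
theorem result {Γ V₁ V₂ : Type*} [Group Γ] [MulAction Γ V₁] [MulAction Γ V₂]
    (T₁ : SimpleGraph V₁) (T₂ : SimpleGraph V₂) (d₁ d₂ : ℕ)
    (tree₁ : T₁.IsTree) (tree₂ : T₂.IsTree) (hd₁ : 3 ≤ d₁) (hd₂ : 3 ≤ d₂)
    (regular₁ : ∀ u, (T₁.neighborSet u).ncard = d₁)
    (regular₂ : ∀ w, (T₂.neighborSet w).ncard = d₂)
    (aut₁ : ∀ (g : Γ) (u u' : V₁), T₁.Adj (g • u) (g • u') ↔ T₁.Adj u u')
    (aut₂ : ∀ (g : Γ) (w w' : V₂), T₂.Adj (g • w) (g • w') ↔ T₂.Adj w w')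
    (free : ∀ (g : Γ) (u : V₁) (w : V₂), g • u = u → g • w = w → g = 1)
    (cocompact : Finite (MulAction.orbitRel.Quotient Γ (V₁ × V₂)))
    (normal : ∀ N : Subgroup Γ, N.Normal → N ≠ ⊥ → N.FiniteIndex) :
    ¬ ∃ lt : Γ → Γ → Prop, IsStrictTotalOrder Γ lt ∧ ∀ f g h, lt g h → lt (f * g) (f * h) := by
  rintro ⟨lt, hlt, hmul⟩
  obtain ⟨S, rfl, rfl⟩ := exists_sys T₁ T₂ d₁ d₂ tree₁ tree₂ hd₁ hd₂ regular₁ regular₂ aut₁ aut₂
    free cocompact
  have h₁ : ∀ v, 3 ≤ (S.G₁.neighborSet v).ncard := fun v => by rw [regular₁]; exact hd₁
  have h₂ : ∀ v, 3 ≤ (S.G₂.neighborSet v).ncard := fun v => by rw [regular₂]; exact hd₂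
  have hgood : S.Good := good_of_trees S (t_COM S) (t_COM S.swap) (t_TREE V₁) (t_TREE V₂)
    tree₁ tree₂ h₁ h₂ normal
  have hinf : Infinite Γ := infinite_group S (tree_infinite S.G₁ tree₁ h₁)
  exact no_chain S hgood (exists_chain S hinf ⟨_, cone_of_order lt hlt hmul⟩)

end Pool.Agent.Results.MP_357edd_al.NotLeftOrderable
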